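import Mathlib
import Pool.Agent.Helper649.ReaH

/-!
Circle homeomorphisms preserving the space of real parts of the disc algebra: a necessary and
sufficient condition, a simple sufficient condition, and examples.
-/

set_option autoImplicit false

namespace Pool.Agent.Results.MP_af796d_an.Characterisation

open Complex MeasureTheory Set
open scoped Real
open Pool.Agent.Helper649.ReDef

theorem result :
    (∀ ψ : Circle ≃ₜ Circle, Preserves ψ ↔ ∃ C : ℝ, Cond ψ C ∧ Cond ψ.symm C) ∧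
    (∀ ψ : Circle ≃ₜ Circle, Preserves ψ ↔ ∃ C : ℝ, CondBV ψ C ∧ CondBV ψ.symm C) ∧
    (∀ ψ : Circle ≃ₜ Circle, ChordBV ψ → Preserves ψ) ∧
    (∀ (ψ : Circle ≃ₜ Circle) (Ψ ω : ℝ → ℝ), (∀ t : ℝ, ψ (Circle.exp t) = Circle.exp (Ψ t)) →
      ContDiff ℝ 1 Ψ → (∀ t, Ψ (t + 2 * π) = Ψ t + 2 * π) → (∀ t, 0 < deriv Ψ t) →
      Monotone ω → (∀ r, 0 ≤ ω r) → (∀ s t, |deriv Ψ s - deriv Ψ t| ≤ ω |s - t|) →
      IntervalIntegrable (fun r => ω r / r) volume 0 (2 * π) → ChordBV ψ) ∧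
    (∀ ρ : ℝ, -1 < ρ → ρ < 1 → ∃ ψ : Circle ≃ₜ Circle,
      (∀ z : Circle, 0 ≤ (z : ℂ).im → (ψ z : ℂ) = (z + ρ) / (1 + ρ * z)) ∧
      (∀ z : Circle, (z : ℂ).im ≤ 0 → ψ z = z) ∧
      Preserves ψ ∧
      (ρ ≠ 0 → ∀ Ψ : ℝ → ℝ, (∀ t : ℝ, ψ (Circle.exp t) = Circle.exp (Ψ t)) →
        ¬ DifferentiableAt ℝ Ψ 0)) ∧
    (∃ (ψ : Circle ≃ₜ Circle) (Ψ : ℝ → ℝ), ContDiff ℝ 1 Ψ ∧ (∀ t, 0 < deriv Ψ t) ∧
      (∀ t : ℝ, ψ (Circle.exp t) = Circle.exp (Ψ t)) ∧ ¬ Preserves ψ) ∧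
    (∀ ψ : Circle ≃ₜ Circle, Preserves ψ → ∃ K : ℝ, ∀ s δ : ℝ,
      ‖(ψ (Circle.exp (s + δ)) : ℂ) - ψ (Circle.exp s)‖ ≤
        K * ‖(ψ (Circle.exp (s - δ)) : ℂ) - ψ (Circle.exp s)‖) :=
  ⟨Pool.Agent.Helper649.ReE.char_poly, Pool.Agent.Helper649.ReH.char_bv,
    Pool.Agent.Helper649.ReE.chordBV_preserves,
    fun ψ Ψ ω hψ h1 hp hpos hm h0 hH hD =>
      Pool.Agent.Helper649.ReF.dini_chordBV Ψ ψ hψ h1 hp hpos ω hm h0 hH hD,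
    fun ρ h1 h2 => Pool.Agent.Helper649.ReE.part_one ρ h1 h2, Pool.Agent.Helper649.ReE.part_two,
    Pool.Agent.Helper649.ReF.quasi⟩

end Pool.Agent.Results.MP_af796d_an.Characterisation
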