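import Mathlib
import Pool.Agent.Helper649.ReaB

/-!
The space of real parts of the disc algebra and circle homeomorphisms: `C¹` regularity with
positive derivative is neither necessary nor sufficient for composition to preserve the space.
-/

set_option autoImplicit false

namespace Pool.Agent.Results.MP_af796d_an.CornerAndC1

open Complex MeasureTheory Set Filter Topology Metric
open scoped Real ComplexConjugate
open Pool.Agent.Helper649.ReA

/-- a function on the circle belongs to the disc algebra -/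
def IsDiscAlg (f : Circle → ℂ) : Prop :=
  ∃ F : ℂ → ℂ, ContinuousOn F (closedBall 0 1) ∧ DifferentiableOn ℂ F (ball 0 1) ∧
    ∀ z : Circle, F z = f z

/-- real parts of the disc algebra -/
def reA : Set (Circle → ℝ) := {u | ∃ f, IsDiscAlg f ∧ ∀ z, u z = (f z).re}

/-- composition with the homeomorphism maps the real part of the disc algebra onto itself -/
def Preserves (ψ : Circle ≃ₜ Circle) : Prop := reA = {v | ∃ u ∈ reA, v = fun z => u (ψ z)}

lemma pres_corner (ρ : ℝ) (h1 : -1 < ρ) (h2 : ρ < 1) (ψ : Circle ≃ₜ Circle)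
    (ha : ∀ z : Circle, 0 ≤ (z : ℂ).im → (ψ z : ℂ) = mob ρ z)
    (hb : ∀ z : Circle, (z : ℂ).im ≤ 0 → ψ z = z) (u : Circle → ℝ) (hu : u ∈ reA) :
    (fun z => u (ψ z)) ∈ reA := by
  obtain ⟨f, ⟨F, hc, hd, hF⟩, hf⟩ := hu
  obtain ⟨G, hGc, hGd, hG1, hG2⟩ := corner ρ h1 h2 F hc hd
  refine ⟨fun z => G z, ⟨G, hGc, hGd, fun z => rfl⟩, fun z => ?_⟩
  show u (ψ z) = (G z).re
  rw [hf (ψ z), ← hF (ψ z)]
  rcases le_total 0 (z : ℂ).im with h | h
  · rw [ha z h, hG1 z (Circle.norm_coe z) h]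
  · rw [hb z h, hG2 z (Circle.norm_coe z) h]

lemma part_one (ρ : ℝ) (h1 : -1 < ρ) (h2 : ρ < 1) : ∃ ψ : Circle ≃ₜ Circle,
      (∀ z : Circle, 0 ≤ (z : ℂ).im → (ψ z : ℂ) = (z + ρ) / (1 + ρ * z)) ∧
      (∀ z : Circle, (z : ℂ).im ≤ 0 → ψ z = z) ∧
      Preserves ψ ∧
      (ρ ≠ 0 → ∀ Ψ : ℝ → ℝ, (∀ t : ℝ, ψ (Circle.exp t) = Circle.exp (Ψ t)) →
        ¬ DifferentiableAt ℝ Ψ 0) := by
  obtain ⟨ψ, ha, hb, hc, hd⟩ := corner_homeo ρ h1 h2
  refine ⟨ψ, ha, hb, ?_, fun h0 Ψ hΨ => corner_not_diff ρ h1 h2 h0 ψ ha hb Ψ hΨ⟩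
  unfold Preserves
  ext v
  constructor
  · intro hv
    refine ⟨fun z => v (ψ.symm z), ?_, ?_⟩
    · exact pres_corner (-ρ) (by linarith) (by linarith) ψ.symm hc hd v hv
    · funext z
      show v z = v (ψ.symm (ψ z))
      rw [Homeomorph.symm_apply_apply]
  · rintro ⟨u, hu, rfl⟩
    exact pres_corner ρ h1 h2 ψ ha hb u hu

lemma part_two : ∃ (ψ : Circle ≃ₜ Circle) (Ψ : ℝ → ℝ), ContDiff ℝ 1 Ψ ∧ (∀ t, 0 < deriv Ψ t) ∧
      (∀ t : ℝ, ψ (Circle.exp t) = Circle.exp (Ψ t)) ∧ ¬ Preserves ψ := by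
  obtain ⟨C, D, hC, hCd, hD, hDd, hCD, hlim, hsym, hhalf, hdiv⟩ := exists_C
  have hmem : ∀ x : ℝ, ((x : ℂ) - (π / 2 : ℝ) * I) ∈ Strip := by
    intro x
    simp only [Strip, Set.mem_setOf_eq]
    have : ((x : ℂ) - ((π / 2 : ℝ) : ℂ) * I).im = -(π / 2) := by simp
    rw [this, abs_neg, abs_of_pos (by positivity)]
  have hmem' : ∀ x : ℝ, ((x : ℂ) + (π / 2 : ℝ) * I) ∈ Strip := by
    intro x
    simp only [Strip, Set.mem_setOf_eq]
    have : ((x : ℂ) + ((π / 2 : ℝ) : ℂ) * I).im = (π / 2) := by simp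
    rw [this, abs_of_pos (by positivity)]
  have hre : ∀ x : ℝ, ((x : ℂ) - ((π / 2 : ℝ) : ℂ) * I).re = x := by intro x; simp
  set R : ℝ → ℝ := fun x => (C (x - (π / 2 : ℝ) * I)).re with hRdef
  set u : ℝ → ℝ := fun x => (D (x - (π / 2 : ℝ) * I)).re with hudef
  have hR : ∀ x, HasDerivAt R (u x) x := by
    intro x
    have h1 : HasDerivAt (fun z : ℂ => C (z - (π / 2 : ℝ) * I)) (D ((x : ℂ) - (π / 2 : ℝ) * I)) (x : ℂ) := by
      have := (hCD _ (hmem x)).comp_sub_const (x : ℂ) (((π / 2 : ℝ) : ℂ) * I)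
      exact this
    exact h1.real_of_complex
  have hu : Continuous u := by
    have h1 : Continuous (fun x : ℝ => D ((x : ℂ) - (π / 2 : ℝ) * I)) :=
      hD.comp_continuous (by fun_prop) hmem
    exact Complex.continuous_re.comp h1
  have habsR : ∀ ε : ℝ, 0 < ε → ∃ N : ℝ, ∀ x : ℝ, N ≤ |x| → |R x| < ε ∧ |u x| < ε := by
    intro ε hε
    obtain ⟨N, hN⟩ := hlim ε hε
    refine ⟨N, fun x hx => ?_⟩
    obtain ⟨h1, h2⟩ := hN _ (hmem x) (by rw [hre]; exact hx)
    exact ⟨lt_of_le_of_lt (Complex.abs_re_le_norm _) h1, lt_of_le_of_lt (Complex.abs_re_le_norm _) h2⟩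
  have hRb : Tendsto R atBot (𝓝 0) := by
    rw [Metric.tendsto_nhds]
    intro ε hε
    obtain ⟨N, hN⟩ := habsR ε hε
    filter_upwards [eventually_le_atBot (-N)] with x hx
    rw [Real.dist_eq, sub_zero]
    exact (hN x (by have := neg_le_abs x; linarith)).1
  have hRt : Tendsto R atTop (𝓝 0) := by
    rw [Metric.tendsto_nhds]
    intro ε hε
    obtain ⟨N, hN⟩ := habsR ε hε
    filter_upwards [eventually_ge_atTop N] with x hx
    rw [Real.dist_eq, sub_zero]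
    exact (hN x (by have := le_abs_self x; linarith)).1
  have hub : Tendsto u atBot (𝓝 0) := by
    rw [Metric.tendsto_nhds]
    intro ε hε
    obtain ⟨N, hN⟩ := habsR ε hε
    filter_upwards [eventually_le_atBot (-N)] with x hx
    rw [Real.dist_eq, sub_zero]
    exact (hN x (by have := neg_le_abs x; linarith)).2
  have hut : Tendsto u atTop (𝓝 0) := by
    rw [Metric.tendsto_nhds]
    intro ε hε
    obtain ⟨N, hN⟩ := habsR ε hε
    filter_upwards [eventually_ge_atTop N] with x hx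
    rw [Real.dist_eq, sub_zero]
    exact (hN x (by have := le_abs_self x; linarith)).2
  have hRcont : Continuous R := continuous_iff_continuousAt.mpr fun x => (hR x).continuousAt
  obtain ⟨M, hM⟩ : ∃ M : ℝ, ∀ x, |R x| ≤ M := by
    obtain ⟨N, hN⟩ := habsR 1 one_pos
    obtain ⟨M, hM⟩ := (isCompact_Icc (a := -N) (b := N)).exists_bound_of_continuousOn hRcont.continuousOn
    refine ⟨max M 1, fun x => ?_⟩
    rcases le_or_gt N |x| with h | h
    · exact le_trans (hN x h).1.le (le_max_right _ _)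
    · refine le_trans ?_ (le_max_left _ _)
      have := hM x ⟨by have := neg_abs_le x; linarith, by have := le_abs_self x; linarith⟩
      simpa using this
  obtain ⟨ψ, Ψ, hΨ1, hΨ2, hΨ3, hup, hlow⟩ := hom_exists R u hR hu hRb hRt hub hut hhalf
  refine ⟨ψ, Ψ, hΨ1, hΨ2, hΨ3, ?_⟩
  intro hpres
  obtain ⟨F, hFc, hFd, hF⟩ := pull_to_disc D hD hDd (fun ε hε => by
    obtain ⟨N, hN⟩ := hlim ε hε
    exact ⟨N, fun z hz h => (hN z hz h).2⟩)
  have hmemF : (fun z : Circle => (F z).re) ∈ reA :=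
    ⟨fun z => F z, ⟨F, hFc, hFd, fun z => rfl⟩, fun z => rfl⟩
  rw [Preserves] at hpres
  rw [hpres] at hmemF
  obtain ⟨u0, ⟨g, ⟨G, hGc, hGd, hG⟩, hg⟩, hu0⟩ := hmemF
  have hu0' : ∀ z : Circle, (F z).re = (G (ψ z)).re := by
    intro z
    have h1 : (F z).re = u0 (ψ z) := congrFun hu0 z
    rw [h1, hg (ψ z), hG (ψ z)]
  obtain ⟨B, hB⟩ := (isCompact_closedBall (0 : ℂ) 1).exists_bound_of_continuousOn hGc
  have hexp : ∀ t : ℝ, ((Circle.exp t : Circle) : ℂ) = exp (t * I) := fun t => Circle.coe_exp t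
  set gt : ℂ → ℂ := fun z => G (cay z) with hgt
  have hgc : ContinuousOn gt Strip := by
    refine hGc.comp (fun z hz => (cay_facts z hz).2.2.2.1.continuousAt.continuousWithinAt) ?_
    intro z hz
    simpa using (cay_facts z hz).2.1
  have hO : OStrip ⊆ Strip := by
    intro z hz
    have h1 : |z.im| < π / 2 := hz
    show |z.im| ≤ π / 2
    exact h1.le
  have hgd : DifferentiableOn ℂ gt OStrip := by
    refine hGd.comp (fun z hz => (cay_facts z (hO hz)).2.2.2.1.differentiableWithinAt) ?_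
    intro z hz
    simpa using (cay_facts z (hO hz)).2.2.1 hz
  have hgB : ∀ z ∈ Strip, ‖gt z‖ ≤ B := by
    intro z hz
    exact hB _ (by simpa using (cay_facts z hz).2.1)
  have hv : ∀ s : ℝ, (gt (((s + R s : ℝ) : ℂ) - (π / 2 : ℝ) * I)).re = u s := by
    intro s
    have e1 := hu0' (Circle.exp (2 * Real.arctan (Real.exp s)))
    rw [hup s, hexp, hexp, ← (cay_line s).1, ← (cay_line (s + R s)).1, hF _ (hmem s)] at e1
    exact e1.symm
  have hw : ∀ s : ℝ, (gt ((s : ℂ) + (π / 2 : ℝ) * I)).re = u s := by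
    intro s
    have e1 := hu0' (Circle.exp (-(2 * Real.arctan (Real.exp s))))
    rw [hlow s, hexp, ← (cay_line s).2, hF _ (hmem' s), hsym s] at e1
    exact e1.symm
  have hvc : Continuous (fun x : ℝ => (gt ((x : ℂ) - (π / 2 : ℝ) * I)).re) :=
    Complex.continuous_re.comp (hgc.comp_continuous (by fun_prop) hmem)
  obtain ⟨N, hN0, hN⟩ := hdiv (4 * M + 2 * π * B + 1)
  have hsub : ∫ s in (-N)..0, u s * (1 + u s) =
      ∫ y in ((-N) + R (-N))..(0 + R 0), (gt ((y : ℂ) - (π / 2 : ℝ) * I)).re := by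
    rw [← intervalIntegral.integral_comp_mul_deriv (f := fun s => s + R s) (f' := fun s => 1 + u s)
      (g := fun y : ℝ => (gt ((y : ℂ) - (π / 2 : ℝ) * I)).re)
      (fun s _ => (hasDerivAt_id s).add (hR s)) (by fun_prop) hvc]
    refine intervalIntegral.integral_congr fun s _ => ?_
    show u s * (1 + u s) = (gt (((s + R s : ℝ) : ℂ) - (π / 2 : ℝ) * I)).re * (1 + u s)
    rw [hv s]
  have hrect := rect gt hgc hgd B hgB ((-N) + R (-N)) (0 + R 0)
  have hsplit : ∫ x in ((-N) + R (-N))..(0 + R 0), ((gt (x + (π / 2 : ℝ) * I)).re - (gt (x - (π / 2 : ℝ) * I)).re)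
      = (∫ x in ((-N) + R (-N))..(0 + R 0), u x)
        - ∫ x in ((-N) + R (-N))..(0 + R 0), (gt (x - (π / 2 : ℝ) * I)).re := by
    rw [← intervalIntegral.integral_sub (hu.intervalIntegrable _ _) (hvc.intervalIntegrable _ _)]
    refine intervalIntegral.integral_congr fun s _ => ?_
    show (gt (s + (π / 2 : ℝ) * I)).re - (gt (s - (π / 2 : ℝ) * I)).re =
      u s - (gt (s - (π / 2 : ℝ) * I)).re
    rw [hw s]
  have hftc : ∀ a b : ℝ, ∫ x in a..b, u x = R b - R a := fun a b =>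
    intervalIntegral.integral_eq_sub_of_hasDerivAt (fun x _ => hR x) (hu.intervalIntegrable _ _)
  have hsq : ∫ s in (-N)..0, u s ^ 2 = (∫ s in (-N)..0, u s * (1 + u s)) - ∫ s in (-N)..0, u s := by
    rw [← intervalIntegral.integral_sub ((by fun_prop : Continuous fun s => u s * (1 + u s)).intervalIntegrable _ _)
      (hu.intervalIntegrable _ _)]
    refine intervalIntegral.integral_congr fun s _ => ?_
    show u s ^ 2 = u s * (1 + u s) - u s
    ring
  rw [hsplit, hftc, ← hsub] at hrect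
  rw [hftc] at hsq
  have b1 := abs_le.mp hrect
  have c1 := abs_le.mp (hM (0 + R 0))
  have c2 := abs_le.mp (hM (-N + R (-N)))
  have c3 := abs_le.mp (hM 0)
  have c4 := abs_le.mp (hM (-N))
  have hN' : 4 * M + 2 * π * B + 1 ≤ ∫ s in (-N)..0, u s ^ 2 := hN
  linarith [b1.1, b1.2, c1.1, c1.2, c2.1, c2.2, c3.1, c3.2, c4.1, c4.2]

theorem result :
    (∀ ρ : ℝ, -1 < ρ → ρ < 1 → ∃ ψ : Circle ≃ₜ Circle,
      (∀ z : Circle, 0 ≤ (z : ℂ).im → (ψ z : ℂ) = (z + ρ) / (1 + ρ * z)) ∧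
      (∀ z : Circle, (z : ℂ).im ≤ 0 → ψ z = z) ∧
      Preserves ψ ∧
      (ρ ≠ 0 → ∀ Ψ : ℝ → ℝ, (∀ t : ℝ, ψ (Circle.exp t) = Circle.exp (Ψ t)) →
        ¬ DifferentiableAt ℝ Ψ 0)) ∧
    (∃ (ψ : Circle ≃ₜ Circle) (Ψ : ℝ → ℝ), ContDiff ℝ 1 Ψ ∧ (∀ t, 0 < deriv Ψ t) ∧
      (∀ t : ℝ, ψ (Circle.exp t) = Circle.exp (Ψ t)) ∧ ¬ Preserves ψ) :=
  ⟨fun ρ h1 h2 => part_one ρ h1 h2, part_two⟩

end Pool.Agent.Results.MP_af796d_an.CornerAndC1
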